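import Mathlib

/-!
# Combinatorial part of the five bodies theorem

An alternating sign map on the triples of a five element set always contains one of two patterns.
This is a finite check over `2 ^ 10` sign maps.
-/

set_option autoImplicit false

namespace Pool.Agent.Helper50.FiveComb

/-- lookup table, base 32, position `25 a + 5 b + c`: twice the index of the triple, plus parity -/
def tab : Nat := 2474666507543777752276364367440917747423569464998486720610909381318396034064403211501561083814993519001886345514775002608364680857791529361717210370968285132505951925994526867456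

/-- the value of an alternating sign map coded by ten bits -/
def look (x : List Bool) (a b c : Nat) : Bool :=
  xor (x.getD ((tab / 32 ^ (25 * a + 5 * b + c) % 32) / 2) false)
    ((tab / 32 ^ (25 * a + 5 * b + c) % 32) % 2 == 1)

/-- all arrangements of the five labels -/
def perms : List (Nat × Nat × Nat × Nat × Nat) :=
  [(0, 1, 2, 3, 4), (0, 1, 2, 4, 3), (0, 1, 3, 2, 4), (0, 1, 3, 4, 2), (0, 1, 4, 2, 3), (0, 1, 4, 3, 2), (0, 2, 1, 3, 4), (0, 2, 1, 4, 3), (0, 2, 3, 1, 4), (0, 2, 3, 4, 1), (0, 2, 4, 1, 3), (0, 2, 4, 3, 1), (0, 3, 1, 2, 4), (0, 3, 1, 4, 2), (0, 3, 2, 1, 4), (0, 3, 2, 4, 1), (0, 3, 4, 1, 2), (0, 3, 4, 2, 1), (0, 4, 1, 2, 3), (0, 4, 1, 3, 2), (0, 4, 2, 1, 3), (0, 4, 2, 3, 1), (0, 4, 3, 1, 2), (0, 4, 3, 2, 1), (1, 0, 2, 3, 4), (1, 0, 2, 4, 3), (1, 0, 3, 2, 4), (1, 0, 3, 4, 2), (1, 0, 4, 2, 3), (1, 0, 4, 3, 2), (1, 2, 0, 3, 4), (1,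 2, 0, 4, 3), (1, 2, 3, 0, 4), (1, 2, 3, 4, 0), (1, 2, 4, 0, 3), (1, 2, 4, 3, 0), (1, 3, 0, 2, 4), (1, 3, 0, 4, 2), (1, 3, 2, 0, 4), (1, 3, 2, 4, 0), (1, 3, 4, 0, 2), (1, 3, 4, 2, 0), (1, 4, 0, 2, 3), (1, 4, 0, 3, 2), (1, 4, 2, 0, 3), (1, 4, 2, 3, 0), (1, 4, 3, 0, 2), (1, 4, 3, 2, 0), (2, 0, 1, 3, 4), (2, 0, 1, 4, 3), (2, 0, 3, 1, 4), (2, 0, 3, 4, 1), (2, 0, 4, 1, 3), (2, 0, 4, 3, 1), (2, 1, 0, 3, 4), (2, 1, 0, 4, 3), (2, 1, 3, 0, 4), (2, 1, 3, 4, 0), (2, 1, 4, 0, 3), (2, 1, 4, 3, 0), (2, 3, 0, 1, 4), (2, 3, 0, 4, 1), (2, 3, 1, 0, 4), (2, 3, 1, 4, 0), (2, 3, 4, 0, 1), (2, 3, 4, 1, 0), (2, 4, 0, 1, 3), (2, 4, 0, 3, 1), (2, 4, 1, 0, 3), (2, 4, 1, 3, 0), (2, 4, 3, 0, 1), (2, 4, 3, 1, 0), (3, 0, 1, 2, 4), (3, 0, 1, 4, 2), (3, 0, 2, 1, 4), (3, 0, 2, 4, 1), (3, 0, 4, 1, 2), (3, 0, 4, 2, 1), (3, 1, 0, 2, 4), (3, 1, 0, 4, 2), (3, 1, 2, 0, 4), (3, 1, 2, 4,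 0), (3, 1, 4, 0, 2), (3, 1, 4, 2, 0), (3, 2, 0, 1, 4), (3, 2, 0, 4, 1), (3, 2, 1, 0, 4), (3, 2, 1, 4, 0), (3, 2, 4, 0, 1), (3, 2, 4, 1, 0), (3, 4, 0, 1, 2), (3, 4, 0, 2, 1), (3, 4, 1, 0, 2), (3, 4, 1, 2, 0), (3, 4, 2, 0, 1), (3, 4, 2, 1, 0), (4, 0, 1, 2, 3), (4, 0, 1, 3, 2), (4, 0, 2, 1, 3), (4, 0, 2, 3, 1), (4, 0, 3, 1, 2), (4, 0, 3, 2, 1), (4, 1, 0, 2, 3), (4, 1, 0, 3, 2), (4, 1, 2, 0, 3), (4, 1, 2, 3, 0), (4, 1, 3, 0, 2), (4, 1, 3, 2, 0), (4, 2, 0, 1, 3), (4, 2, 0, 3, 1), (4, 2, 1, 0, 3), (4, 2, 1, 3, 0), (4, 2, 3, 0, 1), (4, 2, 3, 1, 0), (4, 3, 0, 1, 2), (4, 3, 0, 2, 1), (4, 3, 1, 0, 2), (4, 3, 1, 2, 0), (4, 3, 2, 0, 1), (4, 3, 2, 1, 0)]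

/-- first pattern -/
def patM (o : Nat → Nat → Nat → Bool) (q : Nat × Nat × Nat × Nat × Nat) : Bool :=
  match q with
  | (a, b, c, d, e) => o a c b && o a b e && o a e d && o a d b

/-- second pattern -/
def patC (o : Nat → Nat → Nat → Bool) (q : Nat × Nat × Nat × Nat × Nat) : Bool :=
  match q with
  | (a, b, c, d, e) =>
    !(o a b c) && !(o b c d) && !(o c d e) && !(o d e a) && !(o e a b) &&
    !(o a b d) && !(o b c e) && !(o c d a) && !(o d e b) && !(o e a c)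

/-- one of the two patterns occurs -/
def check (x : List Bool) : Bool := perms.any (fun q => patM (look x) q || patC (look x) q)

theorem key : ∀ x0 x1 x2 x3 x4 x5 x6 x7 x8 x9 : Bool,
    check [x0, x1, x2, x3, x4, x5, x6, x7, x8, x9] = true := by
  decide +kernel

theorem perms_ok : ∀ q ∈ perms, q.1 < 5 ∧ q.2.1 < 5 ∧ q.2.2.1 < 5 ∧ q.2.2.2.1 < 5 ∧ q.2.2.2.2 < 5 ∧
    q.1 ≠ q.2.1 ∧ q.1 ≠ q.2.2.1 ∧ q.1 ≠ q.2.2.2.1 ∧ q.1 ≠ q.2.2.2.2 ∧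
    q.2.1 ≠ q.2.2.1 ∧ q.2.1 ≠ q.2.2.2.1 ∧ q.2.1 ≠ q.2.2.2.2 ∧
    q.2.2.1 ≠ q.2.2.2.1 ∧ q.2.2.1 ≠ q.2.2.2.2 ∧ q.2.2.2.1 ≠ q.2.2.2.2 := by
  decide +kernel

theorem look_eq (O : Fin 5 → Fin 5 → Fin 5 → Bool)
    (rot : ∀ a b c, a ≠ b → b ≠ c → a ≠ c → O b c a = O a b c)
    (rev : ∀ a b c, a ≠ b → b ≠ c → a ≠ c → O b a c = !O a b c) :
    ∀ a b c : Fin 5, a ≠ b → b ≠ c → a ≠ c →
      look [O 0 1 2, O 0 1 3, O 0 1 4, O 0 2 3, O 0 2 4, O 0 3 4, O 1 2 3, O 1 2 4, O 1 3 4,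
        O 2 3 4] a b c = O a b c := by
  have base : ∀ a b c : Fin 5, a < b → b < c →
      look [O 0 1 2, O 0 1 3, O 0 1 4, O 0 2 3, O 0 2 4, O 0 3 4, O 1 2 3, O 1 2 4, O 1 3 4,
        O 2 3 4] a b c = O a b c ∧
      look [O 0 1 2, O 0 1 3, O 0 1 4, O 0 2 3, O 0 2 4, O 0 3 4, O 1 2 3, O 1 2 4, O 1 3 4,
        O 2 3 4] b c a = O a b c ∧
      look [O 0 1 2, O 0 1 3, O 0 1 4, O 0 2 3, O 0 2 4, O 0 3 4, O 1 2 3, O 1 2 4, O 1 3 4,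
        O 2 3 4] c a b = O a b c ∧
      look [O 0 1 2, O 0 1 3, O 0 1 4, O 0 2 3, O 0 2 4, O 0 3 4, O 1 2 3, O 1 2 4, O 1 3 4,
        O 2 3 4] b a c = !O a b c ∧
      look [O 0 1 2, O 0 1 3, O 0 1 4, O 0 2 3, O 0 2 4, O 0 3 4, O 1 2 3, O 1 2 4, O 1 3 4,
        O 2 3 4] a c b = !O a b c ∧
      look [O 0 1 2, O 0 1 3, O 0 1 4, O 0 2 3, O 0 2 4, O 0 3 4, O 1 2 3, O 1 2 4, O 1 3 4,
        O 2 3 4] c b a = !O a b c := by
    intro a b c hab hbc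
    fin_cases a <;> fin_cases b <;> fin_cases c <;>
      first
        | (exfalso; revert hab hbc; decide)
        | (simp [look, tab])
  intro a b c hab hbc hac
  rcases lt_or_gt_of_ne hab with h1 | h1 <;> rcases lt_or_gt_of_ne hbc with h2 | h2 <;>
    rcases lt_or_gt_of_ne hac with h3 | h3
  · exact (base a b c h1 h2).1
  · exact absurd (h1.trans h2) (not_lt.2 h3.le)
  · rw [(base a c b h3 h2).2.2.2.2.1, rev c a b hac.symm hab hbc.symm, Bool.not_not,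
      rot b c a hbc hac.symm hab.symm, rot a b c hab hbc hac]
  · rw [(base c a b h3 h1).2.1, rot b c a hbc hac.symm hab.symm, rot a b c hab hbc hac]
  · rw [(base b a c h1 h3).2.2.2.1, rev a b c hab hbc hac, Bool.not_not]
  · rw [(base b c a h2 h3).2.2.1, rot a b c hab hbc hac]
  · exact absurd (h2.trans h1) (not_lt.2 h3.le)
  · rw [(base c b a h2 h1).2.2.2.2.2, rev b c a hbc hac.symm hab.symm, Bool.not_not,
      rot a b c hab hbc hac]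

theorem inj5 {α : Type*} (a b c d e : α) (hab : a ≠ b) (hac : a ≠ c) (had : a ≠ d) (hae : a ≠ e)
    (hbc : b ≠ c) (hbd : b ≠ d) (hbe : b ≠ e) (hcd : c ≠ d) (hce : c ≠ e) (hde : d ≠ e) :
    Function.Injective (![a, b, c, d, e] : Fin 5 → α) := by
  intro i j hij
  fin_cases i <;> fin_cases j <;> first | rfl | (exfalso; simp at hij; simp_all)

/-- every alternating sign map contains one of the two patterns -/
theorem comb (O : Fin 5 → Fin 5 → Fin 5 → Bool)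
    (rot : ∀ a b c, a ≠ b → b ≠ c → a ≠ c → O b c a = O a b c)
    (rev : ∀ a b c, a ≠ b → b ≠ c → a ≠ c → O b a c = !O a b c) :
    ∃ f : Fin 5 → Fin 5, Function.Injective f ∧
      ((O (f 0) (f 2) (f 1) = true ∧ O (f 0) (f 1) (f 4) = true ∧ O (f 0) (f 4) (f 3) = true ∧
          O (f 0) (f 3) (f 1) = true) ∨
        (∀ j : Fin 5, O (f j) (f (j + 1)) (f (j + 2)) = false ∧
          O (f j) (f (j + 1)) (f (j + 3)) = false)) := by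
  have hk := key (O 0 1 2) (O 0 1 3) (O 0 1 4) (O 0 2 3) (O 0 2 4) (O 0 3 4) (O 1 2 3) (O 1 2 4)
    (O 1 3 4) (O 2 3 4)
  have hl := look_eq O rot rev
  rw [check, List.any_eq_true] at hk
  obtain ⟨⟨a, b, c, d, e⟩, hq, hpat⟩ := hk
  obtain ⟨ha, hb, hc, hd, he, hab, hac, had, hae, hbc, hbd, hbe, hcd, hce, hde⟩ := perms_ok _ hq
  simp only at ha hb hc hd he hab hac had hae hbc hbd hbe hcd hce hde
  set x := [O 0 1 2, O 0 1 3, O 0 1 4, O 0 2 3, O 0 2 4, O 0 3 4, O 1 2 3, O 1 2 4, O 1 3 4,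
        O 2 3 4] with hx
  have hl' : ∀ (u v w : ℕ) (hu : u < 5) (hv : v < 5) (hw : w < 5), u ≠ v → v ≠ w → u ≠ w →
      look x u v w = O ⟨u, hu⟩ ⟨v, hv⟩ ⟨w, hw⟩ := by
    intro u v w hu hv hw huv hvw huw
    exact hl ⟨u, hu⟩ ⟨v, hv⟩ ⟨w, hw⟩ (by simpa [Fin.ext_iff] using huv)
      (by simpa [Fin.ext_iff] using hvw) (by simpa [Fin.ext_iff] using huw)
  refine ⟨![⟨a, ha⟩, ⟨b, hb⟩, ⟨c, hc⟩, ⟨d, hd⟩, ⟨e, he⟩], ?_, ?_⟩
  · apply inj5 <;> simpa [Fin.ext_iff]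
  · rw [Bool.or_eq_true] at hpat
    rcases hpat with h | h
    · left
      simp only [patM, Bool.and_eq_true] at h
      obtain ⟨⟨⟨h1, h2⟩, h3⟩, h4⟩ := h
      rw [hl' a c b ha hc hb hac hbc.symm hab] at h1
      rw [hl' a b e ha hb he hab hbe hae] at h2
      rw [hl' a e d ha he hd hae hde.symm had] at h3
      rw [hl' a d b ha hd hb had hbd.symm hab] at h4
      exact ⟨h1, h2, h3, h4⟩
    · right
      simp only [patC, Bool.and_eq_true, Bool.not_eq_true'] at h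
      obtain ⟨⟨⟨⟨⟨⟨⟨⟨⟨h1, h2⟩, h3⟩, h4⟩, h5⟩, h6⟩, h7⟩, h8⟩, h9⟩, h10⟩ := h
      rw [hl' a b c ha hb hc hab hbc hac] at h1
      rw [hl' b c d hb hc hd hbc hcd hbd] at h2
      rw [hl' c d e hc hd he hcd hde hce] at h3
      rw [hl' d e a hd he ha hde hae.symm had.symm] at h4
      rw [hl' e a b he ha hb hae.symm hab hbe.symm] at h5
      rw [hl' a b d ha hb hd hab hbd had] at h6
      rw [hl' b c e hb hc he hbc hce hbe] at h7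
      rw [hl' c d a hc hd ha hcd had.symm hac.symm] at h8
      rw [hl' d e b hd he hb hde hbe.symm hbd.symm] at h9
      rw [hl' e a c he ha hc hae.symm hac hce.symm] at h10
      intro j
      fin_cases j
      · exact ⟨h1, h6⟩
      · exact ⟨h2, h7⟩
      · exact ⟨h3, h8⟩
      · exact ⟨h4, h9⟩
      · exact ⟨h5, h10⟩

end Pool.Agent.Helper50.FiveComb
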