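import Mathlib
import Pool.Agent.Helper50.FiveComb

/-!
# Algebraic core of the five bodies theorem

Five simplices `S_i = {x | h i j x ≤ 0 for all j}` in a three dimensional space, with
`h j i = - h i j`, a positive relation `∑ j, l i j * h i j = - r i` for each `i`, and points
`p i j = p j i` in the intersection of any two of them, cannot exist.
-/

set_option autoImplicit false

namespace Pool.Agent.Helper50.FiveCore

open Module

structure Config (V : Type*) [AddCommGroup V] [Module ℝ V] where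
  n : Fin 5 → Fin 5 → V →ₗ[ℝ] ℝ
  d : Fin 5 → Fin 5 → ℝ
  n_anti : ∀ i j, n j i = - n i j
  d_anti : ∀ i j, d j i = - d i j
  l : Fin 5 → Fin 5 → ℝ
  l_pos : ∀ i j, i ≠ j → 0 < l i j
  r : Fin 5 → ℝ
  r_pos : ∀ i, 0 < r i
  p : Fin 5 → Fin 5 → V
  p_symm : ∀ i j, p i j = p j i
  z : Fin 5 → V
  rel : ∀ i x, ∑ j, l i j * (n i j x - d i j) = - r i
  inj : ∀ i v, (∀ j, n i j v = 0) → v = 0
  p_le : ∀ i j k, i ≠ j → n i k (p i j) - d i k ≤ 0
  z_lt : ∀ i j, i ≠ j → n i j (z i) - d i j < 0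

variable {V : Type*} [AddCommGroup V] [Module ℝ V]

namespace Config

/-- the affine functions -/
def h (C : Config V) (i j : Fin 5) (x : V) : ℝ := C.n i j x - C.d i j

/-- relabelling -/
def relabel (C : Config V) (f : Fin 5 → Fin 5) (hf : Function.Injective f) : Config V where
  n i j := C.n (f i) (f j)
  d i j := C.d (f i) (f j)
  n_anti i j := C.n_anti _ _
  d_anti i j := C.d_anti _ _
  l i j := C.l (f i) (f j)
  l_pos i j hij := C.l_pos _ _ (fun h => hij (hf h))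
  r i := C.r (f i)
  r_pos i := C.r_pos _
  p i j := C.p (f i) (f j)
  p_symm i j := C.p_symm _ _
  z i := C.z (f i)
  rel i x := by
    have hb : Function.Bijective f := Finite.injective_iff_bijective.1 hf
    rw [← C.rel (f i) x]
    exact hb.sum_comp (fun j => C.l (f i) j * (C.n (f i) j x - C.d (f i) j))
  inj i v hv := by
    have hb : Function.Bijective f := Finite.injective_iff_bijective.1 hf
    apply C.inj (f i) v
    intro j
    obtain ⟨k, rfl⟩ := hb.2 j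
    exact hv k
  p_le i j k hij := C.p_le _ _ _ (fun h => hij (hf h))
  z_lt i j hij := C.z_lt _ _ (fun h => hij (hf h))

lemma relabel_h (C : Config V) (f : Fin 5 → Fin 5) (hf : Function.Injective f) (i j : Fin 5)
    (x : V) : (C.relabel f hf).h i j x = C.h (f i) (f j) x := rfl

lemma relabel_p (C : Config V) (f : Fin 5 → Fin 5) (hf : Function.Injective f) (i j : Fin 5) :
    (C.relabel f hf).p i j = C.p (f i) (f j) := rfl

variable (C : Config V)

lemma h_anti (i j : Fin 5) (x : V) : C.h j i x = - C.h i j x := by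
  simp only [h, C.n_anti i j, C.d_anti i j, LinearMap.neg_apply]; ring

lemma h_self (i : Fin 5) (x : V) : C.h i i x = 0 := by
  have := C.h_anti i i x; linarith

lemma h_le (i j k : Fin 5) (hij : i ≠ j) : C.h i k (C.p i j) ≤ 0 := C.p_le i j k hij

lemma h_le' (i j k : Fin 5) (hij : i ≠ j) : C.h j k (C.p i j) ≤ 0 := by
  rw [C.p_symm]; exact C.p_le j i k hij.symm

lemma h_ge (i j k : Fin 5) (hij : i ≠ j) : 0 ≤ C.h k i (C.p i j) := by
  have := C.h_le i j k hij; rw [C.h_anti i k]; linarith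

lemma h_ge' (i j k : Fin 5) (hij : i ≠ j) : 0 ≤ C.h k j (C.p i j) := by
  have := C.h_le' i j k hij; rw [C.h_anti j k]; linarith

lemma h_zero (i j : Fin 5) : C.h i j (C.p i j) = 0 := by
  by_cases hij : i = j
  · subst hij; exact C.h_self _ _
  · exact le_antisymm (C.h_le i j j hij) (C.h_ge' i j i hij)

lemma hz_lt (i j : Fin 5) (hij : i ≠ j) : C.h i j (C.z i) < 0 := C.z_lt i j hij

lemma hz_gt (i j : Fin 5) (hij : i ≠ j) : 0 < C.h j i (C.z i) := by
  have := C.hz_lt i j hij; rw [C.h_anti i j]; linarith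

lemma rel' (i : Fin 5) (x : V) : ∑ j, C.l i j * C.h i j x = - C.r i := C.rel i x

/-- elementary cyclic lemma -/
lemma cyc_real {a b c l01 l02 l10 l12 l20 l21 : ℝ} (h01 : 0 < l01) (h02 : 0 < l02)
    (h10 : 0 < l10) (h12 : 0 < l12) (h20 : 0 < l20) (h21 : 0 < l21)
    (e0 : l01 * a < l02 * c) (e1 : l12 * b < l10 * a) (e2 : l20 * c < l21 * b) :
    (a < 0 ∧ b < 0 ∧ c < 0) ∨ (0 < a ∧ 0 < b ∧ 0 < c) := by
  rcases lt_or_ge a 0 with ha | ha
  · left
    have hb : b < 0 := by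
      by_contra hb
      push Not at hb
      have h1 := mul_nonneg h12.le hb
      have h2 := mul_neg_of_pos_of_neg h10 ha
      linarith
    have hc : c < 0 := by
      by_contra hc
      push Not at hc
      have h1 := mul_nonneg h20.le hc
      have h2 := mul_neg_of_pos_of_neg h21 hb
      linarith
    exact ⟨ha, hb, hc⟩
  · right
    have hc : 0 < c := by
      by_contra hc
      push Not at hc
      have h1 := mul_nonneg h01.le ha
      have h2 := mul_nonpos_of_nonneg_of_nonpos h02.le hc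
      linarith
    have hb : 0 < b := by
      by_contra hb
      push Not at hb
      have h1 := mul_pos h20 hc
      have h2 := mul_nonpos_of_nonneg_of_nonpos h21.le hb
      linarith
    have ha' : 0 < a := by
      by_contra ha'
      push Not at ha'
      have h1 := mul_pos h12 hb
      have h2 := mul_nonpos_of_nonneg_of_nonpos h10.le ha'
      linarith
    exact ⟨ha', hb, hc⟩

/-- at the contact point of `3` and `4` the labels `0,1,2` are cyclically ordered -/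
lemma tri : (C.h 0 1 (C.p 3 4) < 0 ∧ C.h 1 2 (C.p 3 4) < 0 ∧ C.h 2 0 (C.p 3 4) < 0) ∨
    (0 < C.h 0 1 (C.p 3 4) ∧ 0 < C.h 1 2 (C.p 3 4) ∧ 0 < C.h 2 0 (C.p 3 4)) := by
  have e0 := C.rel' 0 (C.p 3 4)
  have e1 := C.rel' 1 (C.p 3 4)
  have e2 := C.rel' 2 (C.p 3 4)
  rw [Fin.sum_univ_five] at e0 e1 e2
  rw [C.h_self] at e0 e1 e2
  have g03 := mul_nonneg (C.l_pos 0 3 (by decide)).le (C.h_ge 3 4 0 (by decide))
  have g04 := mul_nonneg (C.l_pos 0 4 (by decide)).le (C.h_ge' 3 4 0 (by decide))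
  have g13 := mul_nonneg (C.l_pos 1 3 (by decide)).le (C.h_ge 3 4 1 (by decide))
  have g14 := mul_nonneg (C.l_pos 1 4 (by decide)).le (C.h_ge' 3 4 1 (by decide))
  have g23 := mul_nonneg (C.l_pos 2 3 (by decide)).le (C.h_ge 3 4 2 (by decide))
  have g24 := mul_nonneg (C.l_pos 2 4 (by decide)).le (C.h_ge' 3 4 2 (by decide))
  rw [C.h_anti 2 0] at e0
  rw [C.h_anti 0 1] at e1
  rw [C.h_anti 1 2] at e2
  have r0 := C.r_pos 0
  have r1 := C.r_pos 1
  have r2 := C.r_pos 2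
  refine cyc_real (C.l_pos 0 1 (by decide)) (C.l_pos 0 2 (by decide)) (C.l_pos 1 0 (by decide))
    (C.l_pos 1 2 (by decide)) (C.l_pos 2 0 (by decide)) (C.l_pos 2 1 (by decide)) ?_ ?_ ?_
  · linarith
  · linarith
  · linarith

lemma tri_gen (a b c d e : Fin 5) (hab : a ≠ b) (hac : a ≠ c) (had : a ≠ d) (hae : a ≠ e)
    (hbc : b ≠ c) (hbd : b ≠ d) (hbe : b ≠ e) (hcd : c ≠ d) (hce : c ≠ e) (hde : d ≠ e) :
    (C.h a b (C.p d e) < 0 ∧ C.h b c (C.p d e) < 0 ∧ C.h c a (C.p d e) < 0) ∨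
    (0 < C.h a b (C.p d e) ∧ 0 < C.h b c (C.p d e) ∧ 0 < C.h c a (C.p d e)) := by
  have hf := FiveComb.inj5 a b c d e hab hac had hae hbc hbd hbe hcd hce hde
  exact (C.relabel _ hf).tri

/-- Minimum principle. -/
lemma min_principle {q : Fin 4 → ℝ} {H : Fin 4 → Fin 4 → ℝ} {r : ℝ} (hr : 0 < r)
    (hsum : ∀ m, ∑ j, H m j = - r) (hoff : ∀ m j, j ≠ m → 0 ≤ H m j)
    (hg : ∀ m, 0 ≤ ∑ j, q j * H m j) : ∀ j, q j ≤ 0 := by
  obtain ⟨m, hm⟩ := Finite.exists_max q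
  have h1 : ∑ j, q j * H m j ≤ ∑ j, q m * H m j := by
    apply Finset.sum_le_sum
    intro j _
    by_cases hj : j = m
    · rw [hj]
    · exact mul_le_mul_of_nonneg_right (hm j) (hoff m j hj)
  rw [← Finset.mul_sum, hsum m] at h1
  have h2 := (hg m).trans h1
  have h3 : q m ≤ 0 := by
    by_contra hc
    push Not at hc
    have := mul_pos hc hr
    linarith
  exact fun j => (hm j).trans h3

/-- every affine function is a combination of the functions `h i j`, `j` variable -/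
lemma exists_coeff (i a b : Fin 5) :
    ∃ q : Fin 5 → ℝ, ∀ x, C.h a b x = ∑ j, q j * (C.l i j * C.h i j x) := by
  have hmem : C.n a b ∈ Submodule.span ℝ (Set.range (C.n i)) := by
    apply mem_span_of_iInf_ker_le_ker
    intro v hv
    rw [Submodule.mem_iInf] at hv
    have hv0 : v = 0 := C.inj i v (fun j => by simpa using hv j)
    rw [hv0]; exact Submodule.zero_mem _
  rw [Submodule.mem_span_range_iff_exists_fun] at hmem
  obtain ⟨c, hc⟩ := hmem
  -- the coefficient of the constant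
  set κ : ℝ := (∑ j, c j * C.d i j - C.d a b) / (- C.r i) with hκ
  have hr := C.r_pos i
  refine ⟨fun j => if j = i then 0 else c j / C.l i j + κ, fun x => ?_⟩
  have hc' : C.n a b x = ∑ j, c j * C.n i j x := by
    rw [← hc]; simp [LinearMap.sum_apply]
  have e1 : ∀ j, (if j = i then 0 else c j / C.l i j + κ) * (C.l i j * C.h i j x) =
      c j * C.h i j x + κ * (C.l i j * C.h i j x) := by
    intro j
    by_cases hj : j = i
    · subst hj; simp [C.h_self]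
    · have := (C.l_pos i j (Ne.symm hj)).ne'
      rw [if_neg hj]; field_simp
  rw [Finset.sum_congr rfl (fun j _ => e1 j), Finset.sum_add_distrib, ← Finset.mul_sum, C.rel' i x]
  have e2 : ∑ j, c j * C.h i j x = C.n a b x - ∑ j, c j * C.d i j := by
    rw [hc', ← Finset.sum_sub_distrib]
    apply Finset.sum_congr rfl
    intro j _
    simp only [h]; ring
  rw [e2, hκ]
  simp only [h]
  field_simp
  ring

/-- real variable form of the final step of the first pattern -/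
lemma final_real {q1 q2 q3 q4 r : ℝ} (hr : 0 < r) (h1 : q1 ≤ 0) (h2 : q2 ≤ 0) (h3 : q3 ≤ 0)
    (h4 : q4 ≤ 0)
    -- values at `p 3 4`
    {a1 a2 a3 a4 : ℝ} (ha1 : 0 < a1) (ha2 : a2 < 0) (ha3 : 0 ≤ a3) (ha4 : 0 ≤ a4)
    (ga : 0 < q1 * a1 + q2 * a2 + q3 * a3 + q4 * a4)
    -- values at `p 2 3`
    {b1 b2 b3 b4 : ℝ} (hb2 : 0 ≤ b2) (hb3 : 0 ≤ b3) (hb4 : 0 < b4)
    (gb : 0 ≤ q1 * b1 + q2 * b2 + q3 * b3 + q4 * b4)
    -- values at `p 2 4`
    {c1 c2 c3 c4 : ℝ} (hc1 : 0 < c1) (hc2 : 0 ≤ c2) (hc3 : c3 < 0) (hc4 : 0 ≤ c4)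
    (gc : 0 ≤ q1 * c1 + q2 * c2 + q3 * c3 + q4 * c4)
    -- values at `p 1 2`
    {d1 d2 d3 d4 : ℝ} (hd1 : 0 ≤ d1) (hd2 : 0 ≤ d2) (hd3 : 0 < d3) (hd4 : d4 < 0)
    (gd : 0 ≤ q1 * d1 + q2 * d2 + q3 * d3 + q4 * d4)
    -- values at `p 0 1`
    {e2 e3 e4 : ℝ} (he2 : e2 ≤ 0) (he3 : e3 ≤ 0) (he4 : e4 ≤ 0) (hes : e2 + e3 + e4 = - r)
    (ge : q2 * e2 + q3 * e3 + q4 * e4 ≤ 0)
    -- values at `z 2`
    {z1 z2 z3 z4 : ℝ} (hz2 : 0 < z2) (gz : 0 < q1 * z1 + q2 * z2 + q3 * z3 + q4 * z4) : False := by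
  have m1 := mul_nonneg_of_nonpos_of_nonpos h1 (neg_nonpos.2 ha1.le)
  have m3 := mul_nonneg_of_nonpos_of_nonpos h3 (neg_nonpos.2 ha3)
  have m4 := mul_nonneg_of_nonpos_of_nonpos h4 (neg_nonpos.2 ha4)
  have q2neg : q2 < 0 := by
    rcases h2.lt_or_eq with h | h
    · exact h
    · rw [h] at ga; linarith
  rcases h1.lt_or_eq with h1' | h1'
  · -- all coefficients are negative
    have q3neg : q3 < 0 := by
      rcases h3.lt_or_eq with h | h
      · exact h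
      · rw [h] at gc
        have k1 := mul_neg_of_neg_of_pos h1' hc1
        have k2 := mul_nonpos_of_nonpos_of_nonneg h2 hc2
        have k4 := mul_nonpos_of_nonpos_of_nonneg h4 hc4
        linarith
    have q4neg : q4 < 0 := by
      rcases h4.lt_or_eq with h | h
      · exact h
      · rw [h] at gd
        have k1 := mul_nonpos_of_nonpos_of_nonneg h1 hd1
        have k2 := mul_nonpos_of_nonpos_of_nonneg h2 hd2
        have k3 := mul_neg_of_neg_of_pos q3neg hd3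
        linarith
    have k2 := mul_nonneg_of_nonpos_of_nonpos h2 he2
    have k3 := mul_nonneg_of_nonpos_of_nonpos h3 he3
    have k4 := mul_nonneg_of_nonpos_of_nonpos h4 he4
    have z2' : e2 = 0 := by
      have : q2 * e2 = 0 := by linarith
      rcases mul_eq_zero.1 this with h | h
      · linarith
      · exact h
    have z3' : e3 = 0 := by
      have : q3 * e3 = 0 := by linarith
      rcases mul_eq_zero.1 this with h | h
      · linarith
      · exact h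
    have z4' : e4 = 0 := by
      have : q4 * e4 = 0 := by linarith
      rcases mul_eq_zero.1 this with h | h
      · linarith
      · exact h
    rw [z2', z3', z4'] at hes
    linarith
  · rw [h1'] at gb gd gz
    have q4z : q4 = 0 := by
      have k2 := mul_nonpos_of_nonpos_of_nonneg h2 hb2
      have k3 := mul_nonpos_of_nonpos_of_nonneg h3 hb3
      have k4 := mul_nonpos_of_nonpos_of_nonneg h4 hb4.le
      have : q4 * b4 = 0 := by linarith
      rcases mul_eq_zero.1 this with h | h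
      · exact h
      · linarith
    rw [q4z] at gd gz
    have q3z : q3 = 0 := by
      have k2 := mul_nonpos_of_nonpos_of_nonneg h2 hd2
      have k3 := mul_nonpos_of_nonpos_of_nonneg h3 hd3.le
      have : q3 * d3 = 0 := by linarith
      rcases mul_eq_zero.1 this with h | h
      · exact h
      · linarith
    rw [q3z] at gz
    have := mul_neg_of_neg_of_pos q2neg hz2
    linarith

/-- the first pattern is impossible -/
lemma no_M (o1 : C.h 0 2 (C.p 3 4) < 0) (o1' : 0 < C.h 1 2 (C.p 3 4))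
    (o1'' : 0 < C.h 0 1 (C.p 3 4))
    (o2 : C.h 0 1 (C.p 2 3) < 0) (o2' : 0 < C.h 0 4 (C.p 2 3))
    (o3 : C.h 0 3 (C.p 2 4) < 0) (o3' : 0 < C.h 0 1 (C.p 2 4))
    (o4 : C.h 0 4 (C.p 1 2) < 0) (o4' : 0 < C.h 0 3 (C.p 1 2)) : False := by
  obtain ⟨q, hq⟩ := C.exists_coeff 0 1 2
  have l1 := C.l_pos 0 1 (by decide)
  have l2 := C.l_pos 0 2 (by decide)
  have l3 := C.l_pos 0 3 (by decide)
  have l4 := C.l_pos 0 4 (by decide)
  have hrel : ∀ x, C.l 0 1 * C.h 0 1 x + C.l 0 2 * C.h 0 2 x + C.l 0 3 * C.h 0 3 x +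
      C.l 0 4 * C.h 0 4 x = - C.r 0 := by
    intro x
    have := C.rel' 0 x
    rw [Fin.sum_univ_five, C.h_self] at this
    linarith
  have hq' : ∀ x, C.h 1 2 x = q 1 * (C.l 0 1 * C.h 0 1 x) + q 2 * (C.l 0 2 * C.h 0 2 x) +
      q 3 * (C.l 0 3 * C.h 0 3 x) + q 4 * (C.l 0 4 * C.h 0 4 x) := by
    intro x
    have := hq x
    rw [Fin.sum_univ_five, C.h_self] at this
    linarith
  -- nonnegative values
  have a3 := C.h_ge 3 4 0 (by decide)
  have a4 := C.h_ge' 3 4 0 (by decide)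
  have b2 := C.h_ge 2 3 0 (by decide)
  have b3 := C.h_ge' 2 3 0 (by decide)
  have c2 := C.h_ge 2 4 0 (by decide)
  have c4 := C.h_ge' 2 4 0 (by decide)
  have d1 := C.h_ge 1 2 0 (by decide)
  have d2 := C.h_ge' 1 2 0 (by decide)
  have gb := C.h_ge 2 3 1 (by decide)
  have gc := C.h_ge 2 4 1 (by decide)
  have gd := (C.h_zero 1 2).ge
  have hmin := min_principle (q := ![q 1, q 2, q 3, q 4])
    (H := ![![C.l 0 1 * C.h 0 1 (C.p 2 3), C.l 0 2 * C.h 0 2 (C.p 2 3),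
              C.l 0 3 * C.h 0 3 (C.p 2 3), C.l 0 4 * C.h 0 4 (C.p 2 3)],
            ![C.l 0 1 * C.h 0 1 (C.p 3 4), C.l 0 2 * C.h 0 2 (C.p 3 4),
              C.l 0 3 * C.h 0 3 (C.p 3 4), C.l 0 4 * C.h 0 4 (C.p 3 4)],
            ![C.l 0 1 * C.h 0 1 (C.p 2 4), C.l 0 2 * C.h 0 2 (C.p 2 4),
              C.l 0 3 * C.h 0 3 (C.p 2 4), C.l 0 4 * C.h 0 4 (C.p 2 4)],
            ![C.l 0 1 * C.h 0 1 (C.p 1 2), C.l 0 2 * C.h 0 2 (C.p 1 2),
              C.l 0 3 * C.h 0 3 (C.p 1 2), C.l 0 4 * C.h 0 4 (C.p 1 2)]])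
    (C.r_pos 0) ?_ ?_ ?_
  · have q1 := hmin 0
    have q2 := hmin 1
    have q3 := hmin 2
    have q4 := hmin 3
    simp only [Matrix.cons_val_zero, Matrix.cons_val_one, Matrix.cons_val] at q1 q2 q3 q4
    have e2 := C.h_le 0 1 2 (by decide)
    have e3 := C.h_le 0 1 3 (by decide)
    have e4 := C.h_le 0 1 4 (by decide)
    have e0 := C.h_zero 0 1
    have ge := C.h_le' 0 1 2 (by decide)
    have hse := hrel (C.p 0 1)
    rw [hq', e0] at ge
    rw [e0] at hse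
    rw [hq'] at o1' gb gc gd
    have hz := C.hz_gt 2 1 (by decide)
    rw [hq'] at hz
    exact final_real (C.r_pos 0) q1 q2 q3 q4
      (mul_pos l1 o1'') (mul_neg_of_pos_of_neg l2 o1) (mul_nonneg l3.le a3) (mul_nonneg l4.le a4)
      o1'
      (mul_nonneg l2.le b2) (mul_nonneg l3.le b3) (mul_pos l4 o2') gb
      (mul_pos l1 o3') (mul_nonneg l2.le c2) (mul_neg_of_pos_of_neg l3 o3) (mul_nonneg l4.le c4) gc
      (mul_nonneg l1.le d1) (mul_nonneg l2.le d2) (mul_pos l3 o4') (mul_neg_of_pos_of_neg l4 o4) gd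
      (mul_nonpos_of_nonneg_of_nonpos l2.le e2) (mul_nonpos_of_nonneg_of_nonpos l3.le e3)
      (mul_nonpos_of_nonneg_of_nonpos l4.le e4) (by linarith) (by linarith)
      (mul_pos l2 (C.hz_gt 2 0 (by decide))) hz
  · intro m
    fin_cases m
    · have := hrel (C.p 2 3); simp [Fin.sum_univ_four]; linarith
    · have := hrel (C.p 3 4); simp [Fin.sum_univ_four]; linarith
    · have := hrel (C.p 2 4); simp [Fin.sum_univ_four]; linarith
    · have := hrel (C.p 1 2); simp [Fin.sum_univ_four]; linarith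
  · intro m j hj
    fin_cases m <;> fin_cases j <;> simp at hj ⊢ <;> first
      | exact mul_nonneg l1.le o1''.le
      | exact mul_nonneg l3.le a3
      | exact mul_nonneg l4.le a4
      | exact mul_nonneg l2.le b2
      | exact mul_nonneg l3.le b3
      | exact mul_nonneg l4.le o2'.le
      | exact mul_nonneg l1.le o3'.le
      | exact mul_nonneg l2.le c2
      | exact mul_nonneg l4.le c4
      | exact mul_nonneg l1.le d1
      | exact mul_nonneg l2.le d2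
      | exact mul_nonneg l3.le o4'.le
  · intro m
    fin_cases m
    · have := hq' (C.p 2 3); simp [Fin.sum_univ_four]; linarith
    · have := hq' (C.p 3 4); simp [Fin.sum_univ_four]; linarith
    · have := hq' (C.p 2 4); simp [Fin.sum_univ_four]; linarith
    · have := hq' (C.p 1 2); simp [Fin.sum_univ_four]; linarith

/-! ### The second pattern -/

theorem sign_lemma : ∀ s0 s1 s2 s3 s4 : SignType,
    (∀ j : Fin 5, ¬ (![s0, s1, s2, s3, s4] (j + 1) ≤ 0 ∧ 0 ≤ ![s0, s1, s2, s3, s4] (j + 2) ∧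
      0 ≤ ![s0, s1, s2, s3, s4] (j + 3) ∧ 0 ≤ ![s0, s1, s2, s3, s4] (j + 4) ∧
      (![s0, s1, s2, s3, s4] (j + 2) ≠ 0 ∨ ![s0, s1, s2, s3, s4] (j + 3) ≠ 0))) →
    (∀ j : Fin 5, ¬ (0 ≤ ![s0, s1, s2, s3, s4] (j + 1) ∧ ![s0, s1, s2, s3, s4] (j + 2) ≤ 0 ∧
      ![s0, s1, s2, s3, s4] (j + 3) ≤ 0 ∧ ![s0, s1, s2, s3, s4] (j + 4) ≤ 0 ∧
      (![s0, s1, s2, s3, s4] (j + 2) ≠ 0 ∨ ![s0, s1, s2, s3, s4] (j + 3) ≠ 0))) →
    (∀ j : Fin 5, ¬ (![s0, s1, s2, s3, s4] j ≤ 0 ∧ ![s0, s1, s2, s3, s4] (j + 2) ≤ 0 ∧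
      0 ≤ ![s0, s1, s2, s3, s4] (j + 1) ∧ 0 ≤ ![s0, s1, s2, s3, s4] (j + 4) ∧
      ![s0, s1, s2, s3, s4] (j + 3) = 1)) →
    (∀ j : Fin 5, ¬ (0 ≤ ![s0, s1, s2, s3, s4] j ∧ 0 ≤ ![s0, s1, s2, s3, s4] (j + 2) ∧
      ![s0, s1, s2, s3, s4] (j + 1) ≤ 0 ∧ ![s0, s1, s2, s3, s4] (j + 4) ≤ 0 ∧
      ![s0, s1, s2, s3, s4] (j + 3) = -1)) →
    ((∀ j : Fin 5, ![s0, s1, s2, s3, s4] j = 0) ∨ (∀ j : Fin 5, ![s0, s1, s2, s3, s4] j = 1) ∨
      (∀ j : Fin 5, ![s0, s1, s2, s3, s4] j = -1)) := by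
  decide +kernel

lemma sign_real (β : Fin 5 → ℝ)
    (h1 : ∀ j, ¬ (β (j + 1) ≤ 0 ∧ 0 ≤ β (j + 2) ∧ 0 ≤ β (j + 3) ∧ 0 ≤ β (j + 4) ∧
      (β (j + 2) ≠ 0 ∨ β (j + 3) ≠ 0)))
    (h2 : ∀ j, ¬ (0 ≤ β (j + 1) ∧ β (j + 2) ≤ 0 ∧ β (j + 3) ≤ 0 ∧ β (j + 4) ≤ 0 ∧
      (β (j + 2) ≠ 0 ∨ β (j + 3) ≠ 0)))
    (h3 : ∀ j, ¬ (β j ≤ 0 ∧ β (j + 2) ≤ 0 ∧ 0 ≤ β (j + 1) ∧ 0 ≤ β (j + 4) ∧ 0 < β (j + 3)))
    (h4 : ∀ j, ¬ (0 ≤ β j ∧ 0 ≤ β (j + 2) ∧ β (j + 1) ≤ 0 ∧ β (j + 4) ≤ 0 ∧ β (j + 3) < 0)) :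
    (∀ j, β j = 0) ∨ (∀ j, 0 < β j) ∨ (∀ j, β j < 0) := by
  have hv : ![SignType.sign (β 0), SignType.sign (β 1), SignType.sign (β 2), SignType.sign (β 3),
      SignType.sign (β 4)] = fun j => SignType.sign (β j) := by
    funext j
    fin_cases j <;> rfl
  have key := sign_lemma (SignType.sign (β 0)) (SignType.sign (β 1)) (SignType.sign (β 2))
    (SignType.sign (β 3)) (SignType.sign (β 4))
  rw [hv] at key
  simp only [sign_nonpos_iff, sign_nonneg_iff, ne_eq, sign_eq_zero_iff, sign_eq_one_iff,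
    sign_eq_neg_one_iff] at key
  exact key h1 h2 h3 h4

lemma rot_sum (F : Fin 5 → ℝ) (j : Fin 5) :
    ∑ k, F k = F j + F (j + 1) + F (j + 2) + F (j + 3) + F (j + 4) := by
  rw [← Equiv.sum_comp (Equiv.addLeft j) F, Fin.sum_univ_five]
  simp

/-- the linear combinations of the five functions `h j (j+1)` -/
def S (γ : Fin 5 → ℝ) (x : V) : ℝ := ∑ j, γ j * C.h j (j + 1) x

section

variable (H1 : ∀ j : Fin 5, 0 < C.h (j + 2) (j + 3) (C.p j (j + 1)) ∧
    0 < C.h (j + 3) (j + 4) (C.p j (j + 1)))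
  (H2 : ∀ j : Fin 5, 0 < C.h (j + 3) (j + 4) (C.p j (j + 2)))

lemma side_val (γ : Fin 5 → ℝ) (j : Fin 5) : C.S γ (C.p j (j + 1)) =
    γ (j + 1) * C.h (j + 1) (j + 2) (C.p j (j + 1)) +
    γ (j + 2) * C.h (j + 2) (j + 3) (C.p j (j + 1)) +
    γ (j + 3) * C.h (j + 3) (j + 4) (C.p j (j + 1)) +
    γ (j + 4) * C.h (j + 4) j (C.p j (j + 1)) := by
  rw [S, rot_sum _ j, C.h_zero]
  have e1 : j + 1 + 1 = j + 2 := by rw [add_assoc]; rfl
  have e2 : j + 2 + 1 = j + 3 := by rw [add_assoc]; rfl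
  have e3 : j + 3 + 1 = j + 4 := by rw [add_assoc]; rfl
  have e4 : j + 4 + 1 = j := by rw [add_assoc]; exact add_zero j
  rw [e1, e2, e3, e4]
  ring

lemma diag_val (γ : Fin 5 → ℝ) (j : Fin 5) : C.S γ (C.p j (j + 2)) =
    γ j * C.h j (j + 1) (C.p j (j + 2)) +
    γ (j + 1) * C.h (j + 1) (j + 2) (C.p j (j + 2)) +
    γ (j + 2) * C.h (j + 2) (j + 3) (C.p j (j + 2)) +
    γ (j + 3) * C.h (j + 3) (j + 4) (C.p j (j + 2)) +
    γ (j + 4) * C.h (j + 4) j (C.p j (j + 2)) := by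
  rw [S, rot_sum _ j]
  have e1 : j + 1 + 1 = j + 2 := by rw [add_assoc]; rfl
  have e2 : j + 2 + 1 = j + 3 := by rw [add_assoc]; rfl
  have e3 : j + 3 + 1 = j + 4 := by rw [add_assoc]; rfl
  have e4 : j + 4 + 1 = j := by rw [add_assoc]; exact add_zero j
  rw [e1, e2, e3, e4]

lemma side_signs (j : Fin 5) : C.h (j + 1) (j + 2) (C.p j (j + 1)) ≤ 0 ∧
    0 ≤ C.h (j + 4) j (C.p j (j + 1)) := by
  have hj : j ≠ j + 1 := by revert j; decide
  exact ⟨C.h_le' j (j + 1) (j + 2) hj, C.h_ge j (j + 1) (j + 4) hj⟩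

lemma diag_signs (j : Fin 5) : C.h j (j + 1) (C.p j (j + 2)) ≤ 0 ∧
    0 ≤ C.h (j + 1) (j + 2) (C.p j (j + 2)) ∧ C.h (j + 2) (j + 3) (C.p j (j + 2)) ≤ 0 ∧
    0 ≤ C.h (j + 4) j (C.p j (j + 2)) := by
  have hj : j ≠ j + 2 := by revert j; decide
  exact ⟨C.h_le j (j + 2) (j + 1) hj, C.h_ge' j (j + 2) (j + 1) hj,
    C.h_le' j (j + 2) (j + 3) hj, C.h_ge j (j + 2) (j + 4) hj⟩

include H1 in
lemma side_pos (γ : Fin 5 → ℝ) (j : Fin 5) (h1 : γ (j + 1) ≤ 0) (h2 : 0 ≤ γ (j + 2))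
    (h3 : 0 ≤ γ (j + 3)) (h4 : 0 ≤ γ (j + 4)) (h5 : γ (j + 2) ≠ 0 ∨ γ (j + 3) ≠ 0) :
    0 < C.S γ (C.p j (j + 1)) := by
  rw [C.side_val]
  obtain ⟨s1, s4⟩ := C.side_signs j
  obtain ⟨s2, s3⟩ := H1 j
  have k1 := mul_nonneg_of_nonpos_of_nonpos h1 s1
  have k2 := mul_nonneg h2 s2.le
  have k3 := mul_nonneg h3 s3.le
  have k4 := mul_nonneg h4 s4
  rcases h5 with h5 | h5
  · have := mul_pos (lt_of_le_of_ne h2 (Ne.symm h5)) s2
    linarith
  · have := mul_pos (lt_of_le_of_ne h3 (Ne.symm h5)) s3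
    linarith

include H2 in
lemma diag_pos (γ : Fin 5 → ℝ) (j : Fin 5) (h0 : γ j ≤ 0) (h2 : γ (j + 2) ≤ 0)
    (h1 : 0 ≤ γ (j + 1)) (h4 : 0 ≤ γ (j + 4)) (h3 : 0 < γ (j + 3)) :
    0 < C.S γ (C.p j (j + 2)) := by
  rw [C.diag_val]
  obtain ⟨s0, s1, s2, s4⟩ := C.diag_signs j
  have k0 := mul_nonneg_of_nonpos_of_nonpos h0 s0
  have k1 := mul_nonneg h1 s1
  have k2 := mul_nonneg_of_nonpos_of_nonpos h2 s2
  have k3 := mul_pos h3 (H2 j)
  have k4 := mul_nonneg h4 s4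
  linarith

lemma S_neg (γ : Fin 5 → ℝ) (x : V) : C.S (-γ) x = - C.S γ x := by
  simp only [S, Pi.neg_apply, neg_mul, Finset.sum_neg_distrib]

include H1 H2 in
/-- a linear dependency of the five functions is sign definite -/
lemma definite (β : Fin 5 → ℝ) (hβ : ∀ x, C.S β x = 0) :
    (∀ j, β j = 0) ∨ (∀ j, 0 < β j) ∨ (∀ j, β j < 0) := by
  have hβ' : ∀ x, C.S (-β) x = 0 := fun x => by rw [C.S_neg, hβ, neg_zero]
  apply sign_real
  · rintro j ⟨h1, h2, h3, h4, h5⟩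
    exact absurd (hβ _) (C.side_pos H1 β j h1 h2 h3 h4 h5).ne'
  · rintro j ⟨h1, h2, h3, h4, h5⟩
    refine absurd (hβ' _) (C.side_pos H1 (-β) j ?_ ?_ ?_ ?_ ?_).ne'
    · simpa using h1
    · simpa using h2
    · simpa using h3
    · simpa using h4
    · simpa using h5
  · rintro j ⟨h1, h2, h3, h4, h5⟩
    exact absurd (hβ _) (C.diag_pos H2 β j h1 h2 h3 h4 h5).ne'
  · rintro j ⟨h1, h2, h3, h4, h5⟩
    refine absurd (hβ' _) (C.diag_pos H2 (-β) j ?_ ?_ ?_ ?_ ?_).ne'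
    · simpa using h1
    · simpa using h2
    · simpa using h3
    · simpa using h4
    · simpa using h5

include H1 in
/-- no nonnegative combination with a vanishing coefficient is a nonpositive constant -/
lemma no_nonneg (γ : Fin 5 → ℝ) (h0 : ∀ j, 0 ≤ γ j) (κ : ℝ) (hκ : κ ≤ 0)
    (hγ : ∀ x, C.S γ x = κ) (k : Fin 5) (hk : γ k = 0) : ∀ j, γ j = 0 := by
  have step : ∀ k : Fin 5, γ (k + 1) = 0 → γ (k + 2) = 0 ∧ γ (k + 3) = 0 := by
    intro k hk
    by_contra hc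
    have h5 : γ (k + 2) ≠ 0 ∨ γ (k + 3) ≠ 0 := by
      by_contra h
      push Not at h
      exact hc h
    have := C.side_pos H1 γ k hk.le (h0 _) (h0 _) (h0 _) h5
    rw [hγ] at this
    linarith
  have e1 : k + 4 + 1 = k := by rw [add_assoc]; exact add_zero k
  have e2 : k + 4 + 2 = k + 1 := by rw [add_assoc]; rfl
  have e3 : k + 4 + 3 = k + 2 := by rw [add_assoc]; rfl
  have e4 : k + 1 + 1 = k + 2 := by rw [add_assoc]; rfl
  have e5 : k + 1 + 2 = k + 3 := by rw [add_assoc]; rfl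
  have e6 : k + 1 + 3 = k + 4 := by rw [add_assoc]; rfl
  obtain ⟨a1, a2⟩ := step (k + 4) (by rw [e1]; exact hk)
  rw [e2] at a1
  rw [e3] at a2
  obtain ⟨b1, b2⟩ := step (k + 1) (by rw [e4]; exact a2)
  rw [e5] at b1
  rw [e6] at b2
  intro j
  have hcov : ∀ j k : Fin 5, j = k ∨ j = k + 1 ∨ j = k + 2 ∨ j = k + 3 ∨ j = k + 4 := by decide
  rcases hcov j k with h | h | h | h | h <;> rw [h] <;> assumption

lemma exists_dep [FiniteDimensional ℝ V] (hV : Module.finrank ℝ V = 3) (w : Fin 5 → ℝ) :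
    ∃ γ : Fin 5 → ℝ, γ ≠ 0 ∧ (∀ x, ∑ j, γ j * C.n j (j + 1) x = 0) ∧ ∑ j, γ j * w j = 0 := by
  let Φ : (Fin 5 → ℝ) →ₗ[ℝ] (Module.Dual ℝ V × ℝ) :=
    Fintype.linearCombination ℝ (fun j => ((C.n j (j + 1) : Module.Dual ℝ V), w j))
  have hne : LinearMap.ker Φ ≠ ⊥ := by
    apply LinearMap.ker_ne_bot_of_finrank_lt
    rw [Module.finrank_prod, Subspace.dual_finrank_eq, hV, Module.finrank_self,
      Module.finrank_fintype_fun_eq_card, Fintype.card_fin]
    norm_num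
  obtain ⟨γ, hγ, hγ0⟩ := (Submodule.ne_bot_iff _).1 hne
  rw [LinearMap.mem_ker] at hγ
  have h1 : ∑ j, γ j • (C.n j (j + 1) : Module.Dual ℝ V) = 0 := by
    have := congrArg Prod.fst hγ
    simpa [Φ, Fintype.linearCombination_apply, Prod.fst_sum] using this
  have h2 : ∑ j, γ j * w j = 0 := by
    have := congrArg Prod.snd hγ
    simpa [Φ, Fintype.linearCombination_apply, Prod.snd_sum] using this
  refine ⟨γ, hγ0, fun x => ?_, h2⟩
  have h3 := LinearMap.congr_fun h1 x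
  simpa [LinearMap.sum_apply] using h3

lemma S_eq (γ : Fin 5 → ℝ) (x : V) :
    C.S γ x = ∑ j, γ j * C.n j (j + 1) x - ∑ j, γ j * C.d j (j + 1) := by
  rw [S, ← Finset.sum_sub_distrib]
  apply Finset.sum_congr rfl
  intro j _
  simp only [h]; ring

include H1 H2 in
/-- the second pattern is impossible -/
lemma no_C [FiniteDimensional ℝ V] (hV : Module.finrank ℝ V = 3) : False := by
  obtain ⟨β₀, hβne, hβ1, hβ2⟩ := C.exists_dep hV (fun j => C.d j (j + 1))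
  have hβS : ∀ x, C.S β₀ x = 0 := by
    intro x
    rw [C.S_eq, hβ1 x, hβ2, sub_zero]
  obtain ⟨β, hβpos, hβ⟩ : ∃ β : Fin 5 → ℝ, (∀ j, 0 < β j) ∧ ∀ x, C.S β x = 0 := by
    rcases C.definite H1 H2 β₀ hβS with h | h | h
    · exact absurd (funext h) hβne
    · exact ⟨β₀, h, hβS⟩
    · refine ⟨-β₀, fun j => ?_, fun x => ?_⟩
      · have := h j; simpa using this
      · rw [C.S_neg, hβS, neg_zero]
  obtain ⟨γ₀, hγne, hγ1, hγ2⟩ := C.exists_dep hV (Pi.single 0 1)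
  have hγ00 : γ₀ 0 = 0 := by
    rw [Fin.sum_univ_five] at hγ2
    simpa using hγ2
  obtain ⟨γ, κ, hγne', hγ0, hκ, hγS⟩ : ∃ (γ : Fin 5 → ℝ) (κ : ℝ), γ ≠ 0 ∧ γ 0 = 0 ∧ κ ≤ 0 ∧
      ∀ x, C.S γ x = κ := by
    have hS : ∀ x, C.S γ₀ x = - ∑ j, γ₀ j * C.d j (j + 1) := by
      intro x
      rw [C.S_eq, hγ1 x, zero_sub]
    rcases le_total (- ∑ j, γ₀ j * C.d j (j + 1)) 0 with h | h
    · exact ⟨γ₀, _, hγne, hγ00, h, hS⟩
    · refine ⟨-γ₀, - (- ∑ j, γ₀ j * C.d j (j + 1)), neg_ne_zero.2 hγne, by simp [hγ00],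
        by linarith, fun x => ?_⟩
      rw [C.S_neg, hS]
  obtain ⟨k, hk⟩ := Finite.exists_min (fun j => γ j / β j)
  set t := γ k / β k with ht
  have hnn : ∀ j, 0 ≤ γ j - t * β j := by
    intro j
    have h1 := hk j
    have h2 : t * β j ≤ γ j := by
      rw [← le_div_iff₀ (hβpos j)]
      exact h1
    linarith
  have hzero : γ k - t * β k = 0 := by
    rw [ht, div_mul_cancel₀ _ (hβpos k).ne', sub_self]
  have hS' : ∀ x, C.S (fun j => γ j - t * β j) x = κ := by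
    intro x
    have e : C.S (fun j => γ j - t * β j) x = C.S γ x - t * C.S β x := by
      simp only [S]
      rw [Finset.mul_sum, ← Finset.sum_sub_distrib]
      apply Finset.sum_congr rfl
      intro j _
      ring
    rw [e, hβ, hγS]; ring
  have hall := C.no_nonneg H1 (fun j => γ j - t * β j) hnn κ hκ hS' k hzero
  have ht0 : t = 0 := by
    have h0 := hall 0
    simp only [hγ0, zero_sub, neg_eq_zero] at h0
    rcases mul_eq_zero.1 h0 with h | h
    · exact h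
    · exact absurd h (hβpos 0).ne'
  apply hγne'
  funext j
  have := hall j
  simp only [ht0, zero_mul, sub_zero] at this
  simpa using this

end

/-- the orientation of a triple, read off at the contact point of the two other labels -/
noncomputable def O (a b c : Fin 5) : Bool :=
  by
    classical
    exact decide (∀ d e : Fin 5, a ≠ d → a ≠ e → b ≠ d → b ≠ e → c ≠ d → c ≠ e → d ≠ e →
      C.h a b (C.p d e) < 0)

lemma O_true (a b c d e : Fin 5) (had : a ≠ d) (hae : a ≠ e) (hbd : b ≠ d) (hbe : b ≠ e)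
    (hcd : c ≠ d) (hce : c ≠ e) (hde : d ≠ e) (h : C.O a b c = true) :
    C.h a b (C.p d e) < 0 := by
  simp only [O, decide_eq_true_eq] at h
  exact h d e had hae hbd hbe hcd hce hde

lemma O_iff (a b c d e : Fin 5) (hab : a ≠ b) (hac : a ≠ c) (had : a ≠ d) (hae : a ≠ e)
    (hbc : b ≠ c) (hbd : b ≠ d) (hbe : b ≠ e) (hcd : c ≠ d) (hce : c ≠ e) (hde : d ≠ e) :
    C.O a b c = true ↔ C.h a b (C.p d e) < 0 := by
  constructor
  · exact C.O_true a b c d e had hae hbd hbe hcd hce hde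
  · intro h
    simp only [O, decide_eq_true_eq]
    intro d' e' had' hae' hbd' hbe' hcd' hce' hde'
    have key : ∀ x : Fin 5, a ≠ x → b ≠ x → c ≠ x → x = d ∨ x = e := by
      intro x hax hbx hcx
      have hf := FiveComb.inj5 a b c d e hab hac had hae hbc hbd hbe hcd hce hde
      obtain ⟨i, hi⟩ := (Finite.injective_iff_surjective.1 hf) x
      fin_cases i
      · exact absurd hi hax
      · exact absurd hi hbx
      · exact absurd hi hcx
      · exact Or.inl hi.symm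
      · exact Or.inr hi.symm
    rcases key d' had' hbd' hcd' with rfl | rfl <;> rcases key e' hae' hbe' hce' with rfl | rfl
    · exact absurd rfl hde'
    · exact h
    · rw [C.p_symm]; exact h
    · exact absurd rfl hde'

lemma exists_compl : ∀ a b c : Fin 5, a ≠ b → a ≠ c → b ≠ c →
    ∃ d e : Fin 5, a ≠ d ∧ a ≠ e ∧ b ≠ d ∧ b ≠ e ∧ c ≠ d ∧ c ≠ e ∧ d ≠ e := by
  decide

lemma O_rot (a b c : Fin 5) (hab : a ≠ b) (hbc : b ≠ c) (hac : a ≠ c) : C.O b c a = C.O a b c := by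
  obtain ⟨d, e, had, hae, hbd, hbe, hcd, hce, hde⟩ := exists_compl a b c hab hac hbc
  rw [Bool.eq_iff_iff, C.O_iff a b c d e hab hac had hae hbc hbd hbe hcd hce hde,
    C.O_iff b c a d e hbc hab.symm hbd hbe hac.symm hcd hce had hae hde]
  rcases C.tri_gen a b c d e hab hac had hae hbc hbd hbe hcd hce hde with ⟨h1, h2, h3⟩ | ⟨h1, h2, h3⟩
  · exact ⟨fun _ => h1, fun _ => h2⟩
  · exact ⟨fun h => absurd h (not_lt.2 h2.le), fun h => absurd h (not_lt.2 h1.le)⟩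

lemma O_rev (a b c : Fin 5) (hab : a ≠ b) (hbc : b ≠ c) (hac : a ≠ c) :
    C.O b a c = !C.O a b c := by
  obtain ⟨d, e, had, hae, hbd, hbe, hcd, hce, hde⟩ := exists_compl a b c hab hac hbc
  have h1 := C.O_iff a b c d e hab hac had hae hbc hbd hbe hcd hce hde
  have h2 := C.O_iff b a c d e hab.symm hbc hbd hbe hac had hae hcd hce hde
  rw [C.h_anti a b] at h2
  rcases C.tri_gen a b c d e hab hac had hae hbc hbd hbe hcd hce hde with ⟨h, -, -⟩ | ⟨h, -, -⟩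
  · rw [h1.2 h]
    cases hO : C.O b a c
    · rfl
    · have := h2.1 hO; linarith
  · have e1 : C.O b a c = true := h2.2 (by linarith)
    rw [e1]
    cases hO : C.O a b c
    · rfl
    · have := h1.1 hO; linarith

/-- what `O a b c = true` says -/
lemma O_true' (a b c d e : Fin 5) (hab : a ≠ b) (hac : a ≠ c) (had : a ≠ d) (hae : a ≠ e)
    (hbc : b ≠ c) (hbd : b ≠ d) (hbe : b ≠ e) (hcd : c ≠ d) (hce : c ≠ e) (hde : d ≠ e)
    (h : C.O a b c = true) :
    C.h a b (C.p d e) < 0 ∧ 0 < C.h c b (C.p d e) ∧ 0 < C.h a c (C.p d e) := by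
  have h1 := (C.O_iff a b c d e hab hac had hae hbc hbd hbe hcd hce hde).1 h
  rcases C.tri_gen a b c d e hab hac had hae hbc hbd hbe hcd hce hde with ⟨_, h2, h3⟩ | ⟨h2, -, -⟩
  · refine ⟨h1, ?_, ?_⟩
    · rw [C.h_anti b c]; linarith
    · rw [C.h_anti c a]; linarith
  · linarith

/-- what `O a b c = false` says -/
lemma O_false' (a b c d e : Fin 5) (hab : a ≠ b) (hac : a ≠ c) (had : a ≠ d) (hae : a ≠ e)
    (hbc : b ≠ c) (hbd : b ≠ d) (hbe : b ≠ e) (hcd : c ≠ d) (hce : c ≠ e) (hde : d ≠ e)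
    (h : C.O a b c = false) :
    0 < C.h a b (C.p d e) ∧ 0 < C.h b c (C.p d e) ∧ 0 < C.h c a (C.p d e) := by
  rcases C.tri_gen a b c d e hab hac had hae hbc hbd hbe hcd hce hde with ⟨h1, -, -⟩ | h2
  · have := (C.O_iff a b c d e hab hac had hae hbc hbd hbe hcd hce hde).2 h1
    rw [h] at this
    exact absurd this (by decide)
  · exact h2

include C in
/-- **Algebraic core**: there is no such configuration in dimension three. -/
theorem absurd_config [FiniteDimensional ℝ V] (hV : Module.finrank ℝ V = 3) : False := by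
  obtain ⟨f, hf, hpat⟩ := FiveComb.comb C.O C.O_rot C.O_rev
  have ne : ∀ i j : Fin 5, i ≠ j → f i ≠ f j := fun i j hij h => hij (hf h)
  rcases hpat with ⟨h1, h2, h3, h4⟩ | hC
  · have k1 := C.O_true' (f 0) (f 2) (f 1) (f 3) (f 4) (ne _ _ (by decide)) (ne _ _ (by decide))
      (ne _ _ (by decide)) (ne _ _ (by decide)) (ne _ _ (by decide)) (ne _ _ (by decide))
      (ne _ _ (by decide)) (ne _ _ (by decide)) (ne _ _ (by decide)) (ne _ _ (by decide)) h1
    have k2 := C.O_true' (f 0) (f 1) (f 4) (f 2) (f 3) (ne _ _ (by decide)) (ne _ _ (by decide))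
      (ne _ _ (by decide)) (ne _ _ (by decide)) (ne _ _ (by decide)) (ne _ _ (by decide))
      (ne _ _ (by decide)) (ne _ _ (by decide)) (ne _ _ (by decide)) (ne _ _ (by decide)) h2
    have k3 := C.O_true' (f 0) (f 4) (f 3) (f 1) (f 2) (ne _ _ (by decide)) (ne _ _ (by decide))
      (ne _ _ (by decide)) (ne _ _ (by decide)) (ne _ _ (by decide)) (ne _ _ (by decide))
      (ne _ _ (by decide)) (ne _ _ (by decide)) (ne _ _ (by decide)) (ne _ _ (by decide)) h3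
    have k4 := C.O_true' (f 0) (f 3) (f 1) (f 2) (f 4) (ne _ _ (by decide)) (ne _ _ (by decide))
      (ne _ _ (by decide)) (ne _ _ (by decide)) (ne _ _ (by decide)) (ne _ _ (by decide))
      (ne _ _ (by decide)) (ne _ _ (by decide)) (ne _ _ (by decide)) (ne _ _ (by decide)) h4
    exact (C.relabel f hf).no_M k1.1 k1.2.1 k1.2.2 k2.1 k2.2.2 k4.1 k4.2.2 k3.1 k3.2.2
  · refine (C.relabel f hf).no_C ?_ ?_ hV
    · intro j
      have e1 : j + 2 + 1 = j + 3 := by rw [add_assoc]; rfl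
      have e2 : j + 2 + 2 = j + 4 := by rw [add_assoc]; rfl
      have h := (hC (j + 2)).1
      rw [e1, e2] at h
      have hd : (j + 2 ≠ j + 3) ∧ (j + 2 ≠ j + 4) ∧ (j + 2 ≠ j) ∧ (j + 2 ≠ j + 1) ∧
          (j + 3 ≠ j + 4) ∧ (j + 3 ≠ j) ∧ (j + 3 ≠ j + 1) ∧ (j + 4 ≠ j) ∧ (j + 4 ≠ j + 1) ∧
          (j ≠ j + 1) := by
        clear h e1 e2; revert j; decide
      obtain ⟨d1, d2, d3, d4, d5, d6, d7, d8, d9, d10⟩ := hd
      have k := C.O_false' (f (j + 2)) (f (j + 3)) (f (j + 4)) (f j) (f (j + 1)) (ne _ _ d1)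
        (ne _ _ d2) (ne _ _ d3) (ne _ _ d4) (ne _ _ d5) (ne _ _ d6) (ne _ _ d7) (ne _ _ d8)
        (ne _ _ d9) (ne _ _ d10) h
      exact ⟨k.1, k.2.1⟩
    · intro j
      have e1 : j + 3 + 1 = j + 4 := by rw [add_assoc]; rfl
      have e2 : j + 3 + 3 = j + 1 := by rw [add_assoc]; rfl
      have h := (hC (j + 3)).2
      rw [e1, e2] at h
      have hd : (j + 3 ≠ j + 4) ∧ (j + 3 ≠ j + 1) ∧ (j + 3 ≠ j) ∧ (j + 3 ≠ j + 2) ∧
          (j + 4 ≠ j + 1) ∧ (j + 4 ≠ j) ∧ (j + 4 ≠ j + 2) ∧ (j + 1 ≠ j) ∧ (j + 1 ≠ j + 2) ∧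
          (j ≠ j + 2) := by
        clear h e1 e2; revert j; decide
      obtain ⟨d1, d2, d3, d4, d5, d6, d7, d8, d9, d10⟩ := hd
      have k := C.O_false' (f (j + 3)) (f (j + 4)) (f (j + 1)) (f j) (f (j + 2)) (ne _ _ d1)
        (ne _ _ d2) (ne _ _ d3) (ne _ _ d4) (ne _ _ d5) (ne _ _ d6) (ne _ _ d7) (ne _ _ d8)
        (ne _ _ d9) (ne _ _ d10) h
      exact k.1

end Config

end Pool.Agent.Helper50.FiveCore
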